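import Mathlib
import Pool.Agent.H242R3.ES.StmtsG

/-! Project H242-ES, task ES-TR2 (helper115), adapted from task F2b (helper720). -/

set_option autoImplicit false

open Finset
open scoped Classical

namespace Pool.Agent.H115R3.ES.TR2

open Pool.Agent.H242R3.ES

variable {D : ℕ}

lemma B_hom (x y : Fin D → ℝ) : B (hom x) (hom y) = ∑ i, x i * y i - 1 := by
  simp [B, hom]

lemma B_add_right (x y z : LV D) : B x (y + z) = B x y + B x z := by
  simp only [B, Pi.add_apply, mul_add, sum_add_distrib]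
  ring

lemma B_smul_right (x y : LV D) (c : ℝ) : B x (c • y) = c * B x y := by
  simp only [B, Pi.smul_apply, smul_eq_mul, mul_sub, mul_sum]
  congr 1
  · exact sum_congr rfl fun i _ => by ring
  · ring

lemma B_zero_right (x : LV D) : B x 0 = 0 := by simp [B]

lemma B_sum_right {κ : Type} (s : Finset κ) (x : LV D) (f : κ → LV D) :
    B x (∑ k ∈ s, f k) = ∑ k ∈ s, B x (f k) := by
  induction s using Finset.induction_on with
  | empty => simp [B_zero_right]
  | insert a s ha ih => rw [sum_insert ha, sum_insert ha, B_add_right, ih]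

lemma hull_sub (V : Finset (Fin D → ℝ)) (H : Set (Fin D → ℝ)) (hc : IsClosed H)
    (hcv : Convex ℝ H) (h : EP V ⊆ H) : convexHull ℝ (V : Set (Fin D → ℝ)) ⊆ H := by
  have hcomp : IsCompact (convexHull ℝ (V : Set (Fin D → ℝ))) :=
    V.finite_toSet.isCompact_convexHull ℝ
  rw [← closure_convexHull_extremePoints hcomp (convex_convexHull ℝ _)]
  exact closure_minimal (convexHull_min h hcv) hc

lemma move {K : Set (Fin D → ℝ)} {x : Fin D → ℝ} (hx : x ∈ interior K) (w : Fin D → ℝ) :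
    ∃ δ : ℝ, 0 < δ ∧ x + δ • w ∈ K := by
  rw [mem_interior_iff_mem_nhds, Metric.mem_nhds_iff] at hx
  obtain ⟨ε, hε, hball⟩ := hx
  have hw : 0 < ‖w‖ + 1 := by positivity
  refine ⟨ε / (2 * (‖w‖ + 1)), by positivity, hball ?_⟩
  rw [Metric.mem_ball, dist_eq_norm, add_sub_cancel_left, norm_smul, Real.norm_eq_abs,
    abs_of_pos (by positivity)]
  calc ε / (2 * (‖w‖ + 1)) * ‖w‖ ≤ ε / (2 * (‖w‖ + 1)) * (‖w‖ + 1) :=
        mul_le_mul_of_nonneg_left (by linarith) (by positivity)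
    _ = ε / 2 := by field_simp
    _ < ε := by linarith

lemma edge (a b : Fin D → ℝ) (hab : a ≠ b) (p : Fin D → ℝ) (hp : p ∈ segment ℝ a b)
    (hp1 : ∑ i, p i ^ 2 = 1) (h : ∀ t : ℝ, 1 ≤ ∑ i, (a i + t * (b i - a i)) ^ 2) :
    ∃ s C : ℝ, 0 ≤ s ∧ s ≤ 1 ∧ 0 < C ∧ ∑ i, a i ^ 2 = 1 + s ^ 2 * C ∧
      ∑ i, b i ^ 2 = 1 + (1 - s) ^ 2 * C ∧ ∑ i, a i * b i = 1 - s * (1 - s) * C := by
  rw [segment_eq_image] at hp
  obtain ⟨s, ⟨hs0, hs1⟩, rfl⟩ := hp
  set A : ℝ := ∑ i, a i ^ 2 with hA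
  set H : ℝ := ∑ i, a i * (b i - a i) with hH
  set C : ℝ := ∑ i, (b i - a i) ^ 2 with hC
  have hq : ∀ t : ℝ, ∑ i, (a i + t * (b i - a i)) ^ 2 = A + 2 * t * H + t ^ 2 * C := by
    intro t
    rw [hA, hH, hC, mul_sum, mul_sum, ← sum_add_distrib, ← sum_add_distrib]
    exact sum_congr rfl fun i _ => by ring
  have hC0 : 0 < C := by
    obtain ⟨i, hi⟩ := Function.ne_iff.1 hab
    refine sum_pos' (fun i _ => sq_nonneg _) ⟨i, mem_univ i, ?_⟩
    have : b i - a i ≠ 0 := sub_ne_zero.2 (Ne.symm hi)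
    positivity
  have h1 : A + 2 * s * H + s ^ 2 * C = 1 := by
    rw [← hq s, ← hp1]
    refine sum_congr rfl fun i _ => ?_
    simp only [Pi.add_apply, Pi.smul_apply, smul_eq_mul]
    ring
  have hE : H + s * C = 0 := by
    have h2 := h (s + (-(H + s * C) / C))
    rw [hq] at h2
    have h3 : A + 2 * (s + (-(H + s * C) / C)) * H + (s + (-(H + s * C) / C)) ^ 2 * C
        = (A + 2 * s * H + s ^ 2 * C) - (H + s * C) ^ 2 / C := by
      field_simp
      ring
    rw [h3, h1] at h2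
    have h4 : (H + s * C) ^ 2 / C ≤ 0 := by linarith
    have h5 : (H + s * C) ^ 2 ≤ 0 := by
      rw [div_le_iff₀ hC0, zero_mul] at h4
      exact h4
    exact pow_eq_zero_iff (two_ne_zero) |>.1 (le_antisymm h5 (sq_nonneg _))
  have hH' : H = -(s * C) := by linarith
  have hA' : A = 1 + s ^ 2 * C := by rw [hH'] at h1; linarith
  have hb : ∑ i, b i ^ 2 = A + 2 * 1 * H + 1 ^ 2 * C := by
    rw [← hq 1]
    exact sum_congr rfl fun i _ => by ring
  have hab' : ∑ i, a i * b i = A + H := by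
    rw [hA, hH, ← sum_add_distrib]
    exact sum_congr rfl fun i _ => by ring
  refine ⟨s, C, hs0, hs1, hC0, hA', ?_, ?_⟩
  · rw [hb, hA', hH']; ring
  · rw [hab', hA', hH']; ring

theorem t : TaskTR2 := by
  intro hF1 hTR1 hGen D hD V hint hTang
  obtain ⟨hfin, hvert, -⟩ := hTR1 D hD V hint
  have : Fintype (EP V) := Fintype.ofFinite _
  obtain ⟨x₀, hx₀⟩ := hint
  have hx₀K : x₀ ∈ convexHull ℝ (V : Set (Fin D → ℝ)) := interior_subset hx₀
  -- edges
  have hedge : ∀ a b : EP V, a ≠ b → Face (fun i : EP V => hom (i : Fin D → ℝ)) {a, b} →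
      ∃ s C : ℝ, 0 ≤ s ∧ s ≤ 1 ∧ 0 < C ∧ ∑ i, (a : Fin D → ℝ) i ^ 2 = 1 + s ^ 2 * C ∧
        ∑ i, (b : Fin D → ℝ) i ^ 2 = 1 + (1 - s) ^ 2 * C ∧
        ∑ i, (a : Fin D → ℝ) i * (b : Fin D → ℝ) i = 1 - s * (1 - s) * C := by
    intro a b hab hf
    have h1 := hF1 D V {(a : Fin D → ℝ), (b : Fin D → ℝ)} (by
      rintro y (rfl | rfl)
      · exact a.2
      · exact b.2) ⟨_, Or.inl rfl⟩
    have hset : {i : EP V | (i : Fin D → ℝ) ∈ ({(a : Fin D → ℝ), (b : Fin D → ℝ)} :
        Set (Fin D → ℝ))} = {a, b} := by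
      ext i
      simp only [Set.mem_ofPred_eq, Set.mem_insert_iff, Set.mem_singleton_iff, Subtype.ext_iff]
    rw [hset, convexHull_pair] at h1
    have hab' : (a : Fin D → ℝ) ≠ b := fun h => hab (Subtype.ext h)
    obtain ⟨p, hp, hp1, hp2⟩ := hTang a (extremePoints_convexHull_subset a.2) b
      (extremePoints_convexHull_subset b.2) hab' (h1.2 hf)
    exact edge a b hab' p hp hp1 hp2
  -- there are at least two vertices
  have hother : ∀ a : EP V, ∃ i : EP V, i ≠ a := by
    intro a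
    by_contra hcon
    push Not at hcon
    have hsub := hull_sub V {(a : Fin D → ℝ)} isClosed_singleton (convex_singleton _) (by
      intro y hy
      have := hcon ⟨y, hy⟩
      exact congrArg Subtype.val this)
    obtain ⟨δ, hδ, hmem⟩ := move hx₀ (fun _ => 1)
    have h1 : x₀ = a := hsub hx₀K
    have h2 : x₀ + δ • (fun _ => (1 : ℝ)) = (a : Fin D → ℝ) := hsub hmem
    have h3 := congrFun (h2.trans h1.symm) ⟨0, by omega⟩
    simp only [Pi.add_apply, Pi.smul_apply, smul_eq_mul, mul_one] at h3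
    linarith
  have hhom : ∀ a : Fin D → ℝ, hom a ≠ (0 : LV D) := by
    intro a h
    have := congrFun h none
    simp [hom] at this
  -- generation by the neighbours
  have hgen : ∀ a i : EP V, ∃ (α : ℝ) (c : EP V → ℝ), (∀ k, c k ≠ 0 → k ≠ a ∧
      Face (fun i : EP V => hom (i : Fin D → ℝ)) {a, k}) ∧
      hom (i : Fin D → ℝ) = α • hom (a : Fin D → ℝ) + ∑ k, c k • hom (k : Fin D → ℝ) := by
    intro a i
    obtain ⟨α, c, -, hc, hi⟩ := hGen (EP V) (LV D) (fun i : EP V => hom (i : Fin D → ℝ)) hvert a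
      Set.univ ⟨0, fun _ => le_rfl, fun i => by simp⟩ (Set.mem_univ a) i (Set.mem_univ i)
    exact ⟨α, c, fun k hk => ⟨(hc k hk).2.1, (hc k hk).2.2⟩, hi⟩
  refine ⟨?_, ?_⟩
  · intro a₀ ha₀
    set a : EP V := ⟨a₀, ha₀⟩ with ha
    -- an edge at `a`
    have hge : 1 ≤ ∑ i, a₀ i ^ 2 := by
      obtain ⟨j, hj⟩ := hother a
      obtain ⟨α, c, hc, hi⟩ := hgen a j
      by_cases hall : ∀ k, c k = 0
      · exfalso
        have h1 : hom (j : Fin D → ℝ) = α • hom (a : Fin D → ℝ) := by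
          rw [hi]
          simp [hall]
        have h2 : α = 1 := by
          have := congrFun h1 none
          simp [hom] at this
          exact this.symm
        rw [h2, one_smul] at h1
        refine hj (Subtype.ext (funext fun k => ?_))
        have := congrFun h1 (some k)
        simpa [hom] using this
      · push Not at hall
        obtain ⟨k, hk⟩ := hall
        obtain ⟨h1, h2⟩ := hc k hk
        obtain ⟨s, C, hs0, hs1, hC0, hA, -, -⟩ := hedge a k (Ne.symm h1) h2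
        have h3 : ∑ i, a₀ i ^ 2 = 1 + s ^ 2 * C := hA
        rw [h3]
        have : 0 ≤ s ^ 2 * C := by positivity
        linarith
    refine lt_of_le_of_ne hge fun heq => ?_
    have hBa : B (hom (a : Fin D → ℝ)) (hom (a : Fin D → ℝ)) = 0 := by
      rw [B_hom]
      have : ∑ i, (a : Fin D → ℝ) i * (a : Fin D → ℝ) i = ∑ i, a₀ i ^ 2 :=
        sum_congr rfl fun i _ => (sq _).symm
      rw [this, ← heq, sub_self]
    have hBk : ∀ k : EP V, k ≠ a → Face (fun i : EP V => hom (i : Fin D → ℝ)) {a, k} →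
        B (hom (a : Fin D → ℝ)) (hom (k : Fin D → ℝ)) = 0 := by
      intro k hk hf
      obtain ⟨s, C, hs0, hs1, hC0, hA, -, hab⟩ := hedge a k (Ne.symm hk) hf
      have h3 : ∑ i, a₀ i ^ 2 = 1 + s ^ 2 * C := hA
      have h4 : s ^ 2 * C = 0 := by linarith
      have h5 : s = 0 := by
        rcases mul_eq_zero.1 h4 with h | h
        · exact pow_eq_zero_iff two_ne_zero |>.1 h
        · exact absurd h hC0.ne'
      rw [B_hom, hab, h5]
      ring
    have hall : ∀ i : EP V, ∑ j, a₀ j * (i : Fin D → ℝ) j = 1 := by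
      intro i
      obtain ⟨α, c, hc, hi⟩ := hgen a i
      have h1 : B (hom (a : Fin D → ℝ)) (hom (i : Fin D → ℝ)) = 0 := by
        rw [hi, B_add_right, B_smul_right, hBa, mul_zero, zero_add, B_sum_right]
        refine sum_eq_zero fun k _ => ?_
        rw [B_smul_right]
        by_cases hk : c k = 0
        · rw [hk, zero_mul]
        · obtain ⟨h2, h3⟩ := hc k hk
          rw [hBk k h2 h3, mul_zero]
      rw [B_hom] at h1
      have h2 : ∑ j, a₀ j * (i : Fin D → ℝ) j - 1 = 0 := h1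
      linarith
    have hcont : Continuous fun x : Fin D → ℝ => ∑ j, a₀ j * x j :=
      continuous_finsetSum _ fun j _ => continuous_const.mul (continuous_apply j)
    have hsub := hull_sub V {x : Fin D → ℝ | ∑ j, a₀ j * x j = 1}
      (isClosed_eq hcont continuous_const) (by
        intro x hx y hy u v hu hv huv
        simp only [Set.mem_ofPred_eq] at hx hy ⊢
        have : ∑ j, a₀ j * (u • x + v • y) j = u * ∑ j, a₀ j * x j + v * ∑ j, a₀ j * y j := by
          rw [mul_sum, mul_sum, ← sum_add_distrib]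
          refine sum_congr rfl fun j _ => ?_
          simp only [Pi.add_apply, Pi.smul_apply, smul_eq_mul]
          ring
        rw [this, hx, hy]
        linarith) (by
        intro y hy
        exact hall ⟨y, hy⟩)
    obtain ⟨δ, hδ, hmem⟩ := move hx₀ a₀
    have h1 : ∑ j, a₀ j * x₀ j = 1 := hsub hx₀K
    have h2 : ∑ j, a₀ j * (x₀ + δ • a₀) j = 1 := hsub hmem
    have h3 : ∑ j, a₀ j * (x₀ + δ • a₀) j = ∑ j, a₀ j * x₀ j + δ * ∑ j, a₀ j ^ 2 := by
      rw [mul_sum, ← sum_add_distrib]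
      refine sum_congr rfl fun j _ => ?_
      simp only [Pi.add_apply, Pi.smul_apply, smul_eq_mul]
      ring
    rw [h3, h1, ← heq] at h2
    linarith
  · intro a b hab hf
    obtain ⟨s, C, hs0, hs1, hC0, hA, hB, hAB⟩ := hedge a b hab hf
    rw [B_hom, hAB]
    have e1 : ∑ i, (a : Fin D → ℝ) i ^ 2 - 1 = s ^ 2 * C := by rw [hA]; ring
    have e2 : ∑ i, (b : Fin D → ℝ) i ^ 2 - 1 = (1 - s) ^ 2 * C := by rw [hB]; ring
    rw [e1, e2, Real.sqrt_mul (sq_nonneg _), Real.sqrt_mul (sq_nonneg _), Real.sqrt_sq hs0,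
      Real.sqrt_sq (by linarith)]
    have h1 := Real.mul_self_sqrt hC0.le
    calc 1 - s * (1 - s) * C - 1 = -(s * (1 - s) * (Real.sqrt C * Real.sqrt C)) := by rw [h1]; ring
      _ = _ := by ring

end Pool.Agent.H115R3.ES.TR2
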